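import Mathlib
import Pool.Agent.Lib.MP_26f5cf_pr.Defs
import Pool.Agent.Lib.MP_26f5cf_pr.Compare
import Pool.Agent.Lib.MP_26f5cf_pr.Meas

/-!
MP_26f5cf_pr, question Q1: for all block-beta distributions the expected number of `j`-faces
has the same order as the expected number of facets.
-/

set_option autoImplicit false

namespace Pool.Agent.Results.MP_26f5cf_pr.FaceNumbersComparable

open MeasureTheory Filter Module
open Pool.Agent.Lib.MP_26f5cf_pr
open scoped ENNReal

/-- For every `m`, all dimensions `d_i ≥ 1` and all exponents `β_i ≥ 0`, the block-beta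
distribution is a probability measure and there are constants `0 < c ≤ C` such that for every
`j ≤ D - 2`, where `D = d_1 + ... + d_m`: for all `n ≥ D + 1` the face numbers `f_j` and
`f_{D-1}` of the convex hull of `n` independent points are almost everywhere measurable with
positive finite expectations, and
`c ≤ liminf E f_j / E f_{D-1}` and `limsup E f_j / E f_{D-1} ≤ C`. -/
theorem result :
    ∀ (m : ℕ) (d : Fin m → ℕ) (β : Fin m → ℝ), (∀ i, 1 ≤ d i) → (∀ i, 0 ≤ β i) →
      IsProbabilityMeasure (blockBeta d β) ∧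
      ∃ c C : ℝ, 0 < c ∧ c ≤ C ∧ ∀ j : ℕ, j + 2 ≤ ∑ i, d i →
        (∀ n : ℕ, ∑ i, d i + 1 ≤ n → ∀ k : ℕ, k = j ∨ k = ∑ i, d i - 1 →
          AEMeasurable (fun X : Fin n → Space d => faceCount (convexHull ℝ (Set.range X)) k)
            (Measure.pi fun _ => blockBeta d β) ∧
          0 < expectedFaces d β n k ∧ expectedFaces d β n k < ⊤) ∧
        ENNReal.ofReal c ≤
          liminf (fun n : ℕ => expectedFaces d β n j / expectedFaces d β n (∑ i, d i - 1)) atTop ∧
        limsup (fun n : ℕ => expectedFaces d β n j / expectedFaces d β n (∑ i, d i - 1)) atTop ≤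
          ENNReal.ofReal C := by
  intro m d β hd hβ
  have hprob := isProbabilityMeasure_blockBeta (d := d) hβ
  refine ⟨hprob, ?_⟩
  rcases Nat.lt_or_ge (∑ i, d i) 2 with hlt | hge
  · exact ⟨1, 1, one_pos, le_rfl, fun j hj => by omega⟩
  obtain ⟨K, hK⟩ : ∃ K, ∑ i, d i = K + 1 := ⟨∑ i, d i - 1, by omega⟩
  have hfin : finrank ℝ (Space d) = K + 1 := by rw [finrank_Space, hK]
  set b : Basis (Fin (K + 1)) ℝ (Space d) := Module.finBasisOfFinrankEq ℝ (Space d) hfin with hb
  have hgp : ∀ n : ℕ, ∀ᵐ X ∂(Measure.pi fun _ : Fin n => blockBeta d β), GenPos X := fun n =>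
    ae_genPos (V := Space d) volume (blockBeta d β) blockBeta_absolutelyContinuous n
  obtain ⟨C, hC, hcomp⟩ := facets_le_vertices hβ hd hK
  have hK1 : ∑ i, d i - 1 = K := by omega
  have hD : (0 : ℝ) < K + 1 := by positivity
  -- deterministic comparisons in expectation
  have hv : ∀ n j : ℕ, K + 2 ≤ n → j ≤ K →
      expectedFaces d β n 0 ≤ ((j + 1 : ℕ) : ℝ≥0∞) * expectedFaces d β n j := by
    intro n j hn hj
    unfold expectedFaces
    rw [← lintegral_const_mul' _ _ (ENNReal.natCast_ne_top _)]
    apply lintegral_mono_ae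
    filter_upwards [hgp n] with X hX
    have hcard : finrank ℝ (Space d) + 1 ≤ Fintype.card (Fin n) := by
      rw [hfin, Fintype.card_fin]; omega
    rw [hX.faceCount_eq hcard (by omega), hX.faceCount_eq hcard (by omega)]
    exact_mod_cast hX.card_vertices_le hcard (j := j) (by omega)
  have hf : ∀ n j : ℕ, K + 2 ≤ n → j ≤ K →
      expectedFaces d β n j ≤ (((K + 1).choose (j + 1) : ℕ) : ℝ≥0∞) * expectedFaces d β n K := by
    intro n j hn hj
    unfold expectedFaces
    rw [← lintegral_const_mul' _ _ (ENNReal.natCast_ne_top _)]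
    apply lintegral_mono_ae
    filter_upwards [hgp n] with X hX
    have hcard : finrank ℝ (Space d) + 1 ≤ Fintype.card (Fin n) := by
      rw [hfin, Fintype.card_fin]; omega
    rw [hX.faceCount_eq hcard (by omega), hX.faceCount_eq hcard (by omega)]
    have h1 := hX.card_faces_le hcard (j := j) (by omega)
    rw [hfin] at h1
    exact_mod_cast h1
  have hpos : ∀ n : ℕ, K + 2 ≤ n → 1 ≤ expectedFaces d β n K := by
    intro n hn
    have h1 : ∀ᵐ X ∂(Measure.pi fun _ : Fin n => blockBeta d β),
        (1 : ℝ≥0∞) ≤ faceCount (convexHull ℝ (Set.range X)) K := by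
      filter_upwards [hgp n] with X hX
      have hcard : finrank ℝ (Space d) + 1 ≤ Fintype.card (Fin n) := by
        rw [hfin, Fintype.card_fin]; omega
      rw [hX.faceCount_eq hcard (by omega)]
      have h2 := hX.facet_pos hcard (by omega)
      rw [hfin] at h2
      exact_mod_cast h2
    calc (1 : ℝ≥0∞) = ∫⁻ _X : Fin n → Space d, 1 ∂(Measure.pi fun _ => blockBeta d β) := by simp
      _ ≤ _ := lintegral_mono_ae h1
  have htop : ∀ n j : ℕ, K + 2 ≤ n → j ≤ K → expectedFaces d β n j < ⊤ := fun n j hn hj =>
    lt_of_le_of_lt (lintegral_faceCount_lt_top hn hj hfin (blockBeta d β) (hgp n))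
      (ENNReal.natCast_lt_top _)
  have hposj : ∀ n j : ℕ, 2 * (K + 1) ≤ n → j ≤ K →
      ENNReal.ofReal (1 / (C * (K + 1))) * expectedFaces d β n K ≤ expectedFaces d β n j := by
    intro n j hn hj
    have h1 := hcomp n hn
    have h2 := hv n j (by omega) hj
    have h3 : expectedFaces d β n K ≤
        ENNReal.ofReal (C * (K + 1)) * expectedFaces d β n j := by
      refine h1.trans ?_
      rw [ENNReal.ofReal_mul hC.le, mul_assoc]
      refine mul_le_mul_right (h2.trans ?_) _
      refine mul_le_mul_left ?_ _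
      rw [← ENNReal.ofReal_natCast]
      apply ENNReal.ofReal_le_ofReal
      push_cast
      have : (j : ℝ) ≤ K := by exact_mod_cast hj
      linarith
    calc ENNReal.ofReal (1 / (C * (K + 1))) * expectedFaces d β n K
        ≤ ENNReal.ofReal (1 / (C * (K + 1))) *
          (ENNReal.ofReal (C * (K + 1)) * expectedFaces d β n j) := mul_le_mul_right h3 _
      _ = expectedFaces d β n j := by
          rw [← mul_assoc, ← ENNReal.ofReal_mul (by positivity),
            one_div_mul_cancel (by positivity), ENNReal.ofReal_one, one_mul]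
  -- positivity for all `n ≥ D + 1`
  have hpos' : ∀ n j : ℕ, K + 2 ≤ n → j ≤ K → 0 < expectedFaces d β n j := by
    intro n j hn hj
    have h1 : ∀ᵐ X ∂(Measure.pi fun _ : Fin n => blockBeta d β),
        (1 : ℝ≥0∞) ≤ faceCount (convexHull ℝ (Set.range X)) j := by
      filter_upwards [hgp n] with X hX
      have hcard : finrank ℝ (Space d) + 1 ≤ Fintype.card (Fin n) := by
        rw [hfin, Fintype.card_fin]; omega
      rw [hX.faceCount_eq hcard (by omega)]
      have h2 := hX.facet_pos hcard (by omega)
      obtain ⟨J, hJ⟩ := Finset.card_pos.1 h2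
      simp only [idxSet, Finset.mem_filter, Finset.mem_univ, true_and] at hJ
      obtain ⟨I, hIJ, hIc⟩ := Finset.exists_subset_card_eq (s := J) (n := j + 1) (by omega)
      have h3 : FaceIdx X I := hX.faceIdx_subset hcard hJ.1 (by omega) hIJ (by
        rw [← Finset.card_pos]; omega)
      have h4 : 0 < (idxSet X (j + 1)).card := by
        rw [Finset.card_pos]
        exact ⟨I, by
          simp only [idxSet, Finset.mem_filter, Finset.mem_univ, true_and]; exact ⟨h3, hIc⟩⟩
      exact_mod_cast h4
    have h5 : (1 : ℝ≥0∞) ≤ expectedFaces d β n j := by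
      calc (1 : ℝ≥0∞) = ∫⁻ _X : Fin n → Space d, 1 ∂(Measure.pi fun _ => blockBeta d β) := by
            simp
        _ ≤ _ := lintegral_mono_ae h1
    exact lt_of_lt_of_le one_pos h5
  refine ⟨min (1 / (C * (K + 1))) 1, max (2 ^ (K + 1)) 1, ?_, ?_, ?_⟩
  · exact lt_min (by positivity) one_pos
  · exact (min_le_right _ _).trans (le_max_right _ _)
  intro j hj
  rw [hK1]
  have hjK : j ≤ K := by omega
  refine ⟨?_, ?_, ?_⟩
  · intro n hn k hk
    have hkK : k ≤ K := by rcases hk with rfl | rfl <;> omega
    exact ⟨aemeasurable_faceCount (by omega) hkK b (blockBeta d β) (hgp n),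
      hpos' n k (by omega) hkK, htop n k (by omega) hkK⟩
  · apply le_liminf_of_le
    · isBoundedDefault
    · filter_upwards [eventually_ge_atTop (2 * (K + 1))] with n hn
      have hKn : K + 2 ≤ n := by omega
      rw [ENNReal.le_div_iff_mul_le (Or.inl (hpos' n K hKn le_rfl).ne')
        (Or.inl (htop n K hKn le_rfl).ne)]
      refine le_trans ?_ (hposj n j hn hjK)
      exact mul_le_mul_left (ENNReal.ofReal_le_ofReal (min_le_left _ _)) _
  · apply limsup_le_of_le
    · isBoundedDefault
    · filter_upwards [eventually_ge_atTop (2 * (K + 1))] with n hn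
      have hKn : K + 2 ≤ n := by omega
      rw [ENNReal.div_le_iff_le_mul (Or.inl (hpos' n K hKn le_rfl).ne')
        (Or.inl (htop n K hKn le_rfl).ne)]
      refine (hf n j hKn hjK).trans ?_
      refine mul_le_mul_left ?_ _
      rw [← ENNReal.ofReal_natCast]
      apply ENNReal.ofReal_le_ofReal
      refine le_trans ?_ (le_max_left _ _)
      have h1 : (K + 1).choose (j + 1) ≤ 2 ^ (K + 1) := Nat.choose_le_two_pow _ _
      exact_mod_cast h1

end Pool.Agent.Results.MP_26f5cf_pr.FaceNumbersComparable
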